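import Pool.Agent.R719.DD.FFd

set_option autoImplicit false

/-! A torsion-free group with a free resolution of the trivial module one of whose boundary matrices
is diagonally dominant is of type FF, and the constant of dominance is sharp. -/

namespace Pool.Agent.Results.MP_d19827_al.DominantBoundary

open Matrix TH57.FF

section defs

variable {G : Type} [Group G]

/-- the sum of the absolute values of the coefficients -/
def norm1 (x : MonoidAlgebra ℤ G) : ℕ := ∑ g ∈ x.coeff.support, (x.coeff g).natAbs

/-- Each row has a coefficient in a column of its own (the column `σ i` for row `i`) whose absolute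
value is at least the sum of the absolute values of all other coefficients of the row. -/
def RowDominant {ν κ : Type} [Fintype κ] (A : Matrix ν κ (MonoidAlgebra ℤ G)) : Prop :=
  ∃ σ : ν → κ, Function.Injective σ ∧
    ∀ i, ∃ g : G, (∑ j, (norm1 (A i j) : ℤ)) ≤ 2 * |(A i (σ i)).coeff g|

/-- Diagonal dominance by rows with the factor `c`: in each row, the sum of the absolute values of
all coefficients of all entries, except the coefficient of `1` in the diagonal entry, is at most `c`
times this coefficient. -/
def Dominant {κ : Type} [Fintype κ] (c : ℝ) (S : Matrix κ κ (MonoidAlgebra ℤ G)) : Prop :=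
  ∀ i, (∑ j, (norm1 (S i j) : ℝ)) - |((S i i).coeff 1 : ℝ)| ≤ c * ((S i i).coeff 1 : ℝ)

end defs

open TH57.Thr TH57.TT2 TH6.LF Pool.Agent.R719.DD in
/-- `Bd G n A` means that `A` is the matrix of `F_{n+1} → F_n` in an exact sequence
`F_{n+1} → F_n → ... → F_0 → ℤ → 0` of `ℤG`-modules in which all `F_i` are free with finite bases.
`FFle G n` means that `ℤ` has a resolution of length at most `n` by finitely generated free modules.

(1) Let `G` be torsion-free and `A` the matrix of `F_{n+1} → F_n`. If each row of `A` has, in a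
column of its own, a coefficient at least as large as the sum of the absolute values of all other
coefficients of the row, `G` is of type FF, with a resolution of length `n + 1`.
(2) If the transpose of the matrix `A` of `F_{n+2} → F_{n+1}` has this property and the cokernel of
`A` is projective, `G` is of type FF, with a resolution of length `n + 2`.
The constant is sharp: let `c > 1`. (3) The matrix of `F_{n+2} → F_{n+1}` can be replaced, for any
group, by a square matrix which is diagonally dominant by rows and by columns with the factor `c`.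
(4) So for every class `𝒞` of groups and all `n`, `N` the following are equivalent: all torsion-free
groups in `𝒞` with an exact sequence `F_{n+2} → ... → F_0 → ℤ → 0` have a free resolution of length
at most `N`; all those with such a dominant matrix have one. -/
theorem result :
    (∀ (G : Type) [Group G], (∀ g : G, IsOfFinOrder g → g = 1) → ∀ (n m k : ℕ)
      (A : Matrix (Fin m) (Fin k) (MonoidAlgebra ℤ G)), Bd G n A → RowDominant A →
      FFle G (n + 1)) ∧
    (∀ (G : Type) [Group G], (∀ g : G, IsOfFinOrder g → g = 1) → ∀ (n m k : ℕ)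
      (A : Matrix (Fin m) (Fin k) (MonoidAlgebra ℤ G)), Bd G (n + 1) A → RowDominant Aᵀ →
      Module.Projective (MonoidAlgebra ℤ G)
        ((Fin k → MonoidAlgebra ℤ G) ⧸ LinearMap.range A.vecMulLinear) → FFle G (n + 2)) ∧
    (∀ (G : Type) [Group G] (n m k : ℕ) (A : Matrix (Fin m) (Fin k) (MonoidAlgebra ℤ G)),
      Bd G (n + 1) A → ∀ c : ℝ, 1 < c →
      ∃ (q : ℕ) (A' : Matrix (Fin q) (Fin q) (MonoidAlgebra ℤ G)),
        Bd G (n + 1) A' ∧ Dominant c A' ∧ Dominant c A'ᵀ) ∧
    (∀ (𝒞 : ∀ (G : Type) [Group G], Prop) (n N : ℕ) (c : ℝ), 1 < c →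
      ((∀ (G : Type) [Group G], 𝒞 G → (∀ g : G, IsOfFinOrder g → g = 1) →
          (∃ (m k : ℕ) (A : Matrix (Fin m) (Fin k) (MonoidAlgebra ℤ G)), Bd G (n + 1) A) →
          FFle G N) ↔
        (∀ (G : Type) [Group G], 𝒞 G → (∀ g : G, IsOfFinOrder g → g = 1) →
          (∃ (q : ℕ) (A : Matrix (Fin q) (Fin q) (MonoidAlgebra ℤ G)),
            Bd G (n + 1) A ∧ Dominant c A ∧ Dominant c Aᵀ) → FFle G N))) := by
  classical
  have htf' : ∀ (G : Type) [Group G], (∀ g : G, IsOfFinOrder g → g = 1) →
      ∀ g : G, ∀ k : ℕ, 0 < k → g ^ k = 1 → g = 1 := fun G _ htf g k hk h =>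
    htf g (isOfFinOrder_iff_pow_eq_one.2 ⟨k, hk, h⟩)
  refine ⟨fun G _ htf n m k A hA hd => ?_, fun G _ htf n m k A hA hd hP => ?_,
    fun G _ n m k A hA c hc => Bd_dom n A hA c hc, fun 𝒞 n N c hc => ⟨?_, ?_⟩⟩
  · have h1 := FFle_of_FR n A hA 0 (FR_of_RB A (RB_of_RDom (htf' G htf) A hd))
    have h2 : 0 + n + 1 = n + 1 := by ring
    rwa [h2] at h1
  · obtain ⟨l, B, hB, hAB⟩ := hA
    obtain ⟨Y, hY⟩ := regular_of_projective A _ hP (LinearEquiv.refl _ _)
    have hSFC : SFC A := by
      apply SFC_of_adj
      refine SFC_of_RB (adj A) (RB_of_RDom (htf' G htf) (adj A) ?_) (adj Y) ?_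
      · obtain ⟨σ, hσ, h⟩ := hd
        refine ⟨σ, hσ, fun i => ?_⟩
        obtain ⟨g, hg⟩ := h i
        refine ⟨g⁻¹, ?_⟩
        rw [adj_apply, coeff_bar, inv_inv]
        refine le_trans (le_of_eq ?_) hg
        refine Finset.sum_congr rfl fun j _ => ?_
        rw [adj_apply, l1_bar]; rfl
      · rw [← adj_mul, ← adj_mul, ← Matrix.mul_assoc, hY]
    have h1 := FFle_of_FR n B hB 1 (FR_proj A B hAB hSFC)
    have h2 : 1 + n + 1 = n + 2 := by ring
    rwa [h2] at h1
  · intro h G _ h1 h2 ⟨q, A, h3, _, _⟩
    exact h G h1 h2 ⟨q, q, A, h3⟩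
  · intro h G _ h1 h2 ⟨m, k, A, h3⟩
    exact h G h1 h2 (Bd_dom n A h3 c hc)

end Pool.Agent.Results.MP_d19827_al.DominantBoundary
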