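import Pool.Agent.R779.FJ.Ports

/-!
# Groups of type FP and type FF: multiple HNN extensions of halos over labelled graphs

`C` is any class of groups with the closure properties `ClosedE C`, all of which are known for the
class of the groups that satisfy the K-theoretic Farrell–Jones conjecture with coefficients and
finite wreath products; for the groups in that class type FP implies type FF.

A halo is a functor from labelled graphs and embeddings to groups and injective homomorphisms such
that every element comes from a finite subgraph. Examples are the Coxeter groups `W(S, m)` (the
labels are the orders), graph products with vertex groups given by the labels of the vertices, and,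
for one label, direct sums, free products, verbal products of copies of a group, and the groups of
the finitary invertible matrices over a ring.

Let the values of a halo `H` on the finite labelled graphs be in `C`, and let `f_i`, `i ∈ I`, be
isomorphisms between full subgraphs `D_i` and `f_i(D_i)` of a labelled graph `(V, ℓ)`; `V`, `D_i`
and `I` may be infinite. Then the group generated by `H(V, ℓ)` and letters `t_i` with the relations
`t_i x t_i⁻¹ = f_i(x)`, `x ∈ H(D_i)`, is in `C`. So for its subgroups type FP implies type FF. (The
fundamental groups of all graphs of groups whose vertex groups are the values of `H` on full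
subgraphs of `(V, ℓ)` and whose edge maps are given by such isomorphisms are subgroups.)

Outline of the proof. By the construction of Hubička, Konečný and Nešetřil all the `f_i` are induced
by automorphisms of one larger labelled graph `T` (infinite, if `V` is infinite), so the multiple
HNN extension has a homomorphism to `H(T) ⋊ F(I)`, which is in `C` by the theorem on extensions by
halos, and it is injective on `H(V, ℓ)`. Hence, adding the stable letters one by one, one sees that
the group is a directed union of groups which embed in iterated semidirect products with
permutationally free kernels.
-/

set_option autoImplicit false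

namespace Pool.Agent.Results.MP_d19827_al.HaloHNN

open Pool.Agent.Y110.FJ Pool.Agent.R779.FJ Pool.Agent.R779.FJ.Ports

theorem result (C : ∀ (G : Type) [Group G], Prop) (hC : ClosedE C)
    (hS : ∀ (Γ : Type) [Group Γ], C Γ → FP Γ → FF Γ)
    (L : Type) (hL : Nonempty L) (H : Halo L) (hfin : FinIn C H)
    (V I : Type) (ℓ : V → V → L) (hℓ : ∀ x y, ℓ x y = ℓ y x) (D : I → Set V)
    (f : ∀ i, D i → V) (hf : ∀ i, Emb (rs ℓ (D i)) ℓ (f i)) :
    C (HH H ℓ D f hf) ∧ ∀ (Γ : Type) [Group Γ] (j : Γ →* HH H ℓ D f hf), Function.Injective j →
      FP Γ → FF Γ := by
  have h1 : C (HH H ℓ D f hf) := thmC C hC L hL H hfin V I ℓ hℓ D f hf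
  exact ⟨h1, fun Γ _ j hj => hS Γ (hC.base.of_injective _ _ j hj h1)⟩

end Pool.Agent.Results.MP_d19827_al.HaloHNN
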